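import Pool.Agent.H29.BH.Targets2

/-!
# (PI) integrals of products over the places (MP_52e316_nt)
-/

set_option autoImplicit false

open NumberField NumberField.InfinitePlace NumberField.Units
  NumberField.Units.dirichletUnitTheorem MeasureTheory Set Filter Complex
open scoped nonZeroDivisors ENNReal

namespace Pool.Agent.H69.BH

open Pool.Agent.H29.BH
open Pool.Agent.H29.DW (rv)

namespace PI

/-- the measure of a ball -/
theorem mz_ball (r : Bool) (R : ℝ) : mz r (Metric.closedBall 0 R) < ∞ := by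
  unfold mz
  cases r
  · simp only [Bool.false_eq_true, if_false]
    exact measure_closedBall_lt_top
  · simp only [if_true]
    rw [Measure.map_apply (by fun_prop) Metric.isClosed_closedBall.measurableSet]
    refine lt_of_le_of_lt (measure_mono ?_) (measure_closedBall_lt_top (x := (0 : ℝ)) (r := R))
    intro x hx
    have h1 : ‖((x : ℝ) : ℂ) - 0‖ ≤ R := by
      have h2 := Set.mem_preimage.1 hx
      rwa [Metric.mem_closedBall, dist_eq_norm] at h2
    rw [Metric.mem_closedBall, dist_eq_norm]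
    rw [sub_zero] at h1 ⊢
    rwa [Complex.norm_real] at h1

/-- integrability -/
theorem int_prod {ι : Type} [Fintype ι] (μ : ι → Measure ℂ) [∀ v, SigmaFinite (μ v)]
    (hfin : ∀ v R, μ v (Metric.closedBall 0 R) < ∞) (g : ι → ℂ → ℂ → ℂ) (B : ℝ)
    (hm : ∀ v, Measurable (fun q : ℂ × ℂ => g v q.1 q.2))
    (hB : ∀ v b z, ‖g v b z‖ ≤ B ∧ (g v b z ≠ 0 → ‖b‖ ≤ B ∧ ‖z‖ ≤ B)) :
    Integrable (fun q : (ι → ℂ) × (ι → ℂ) => ∏ v, g v (q.1 v) (q.2 v))
      ((Measure.pi μ).prod (Measure.pi μ)) := by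
  have hmeas : Measurable (fun q : (ι → ℂ) × (ι → ℂ) => ∏ v, g v (q.1 v) (q.2 v)) := by
    refine Finset.measurable_fun_prod _ fun v _ => ?_
    have h1 : Measurable fun q : (ι → ℂ) × (ι → ℂ) => q.1 v :=
      (measurable_pi_apply v).comp measurable_fst
    have h2 : Measurable fun q : (ι → ℂ) × (ι → ℂ) => q.2 v :=
      (measurable_pi_apply v).comp measurable_snd
    have h3 : Measurable fun q : (ι → ℂ) × (ι → ℂ) => (q.1 v, q.2 v) := h1.prodMk h2
    exact (hm v).comp h3
  set S : Set (ι → ℂ) := Set.univ.pi fun _ => Metric.closedBall 0 B with hS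
  have hSm : MeasurableSet S :=
    MeasurableSet.univ_pi fun _ => Metric.isClosed_closedBall.measurableSet
  have hSf : Measure.pi μ S < ∞ := by
    rw [hS, Measure.pi_pi]
    exact ENNReal.prod_lt_top fun v _ => hfin v B
  have hSS : ((Measure.pi μ).prod (Measure.pi μ)) (S ×ˢ S) < ∞ := by
    rw [Measure.prod_prod]
    exact ENNReal.mul_lt_top hSf hSf
  have hint : Integrable ((S ×ˢ S).indicator fun _ : (ι → ℂ) × (ι → ℂ) =>
      B ^ Fintype.card ι) ((Measure.pi μ).prod (Measure.pi μ)) := by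
    rw [integrable_indicator_iff (hSm.prod hSm)]
    exact integrableOn_const hSS.ne
  refine hint.mono' hmeas.aestronglyMeasurable (Filter.Eventually.of_forall fun q => ?_)
  by_cases hq : q ∈ S ×ˢ S
  · rw [Set.indicator_of_mem hq]
    calc ‖∏ v, g v (q.1 v) (q.2 v)‖ = ∏ v, ‖g v (q.1 v) (q.2 v)‖ := norm_prod _ _
      _ ≤ ∏ _v : ι, B := Finset.prod_le_prod (fun v _ => norm_nonneg _) fun v _ => (hB v _ _).1
      _ = _ := by rw [Finset.prod_const, Finset.card_univ]
  · rw [Set.indicator_of_notMem hq]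
    have h1 : ∃ v, g v (q.1 v) (q.2 v) = 0 := by
      by_contra hcon
      push Not at hcon
      apply hq
      rw [hS]
      refine ⟨fun v _ => ?_, fun v _ => ?_⟩
      · have := ((hB v _ _).2 (hcon v)).1
        simpa using this
      · have := ((hB v _ _).2 (hcon v)).2
        simpa using this
    obtain ⟨v, hv⟩ := h1
    rw [Finset.prod_eq_zero (Finset.mem_univ v) hv, norm_zero]

theorem norm_le {ι : Type} [Fintype ι] (μ : ι → Measure ℂ) [∀ v, SigmaFinite (μ v)]
    (g : ι → ℂ → ℂ → ℂ) :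
    ENNReal.ofReal ‖∫ b, ∫ z, ∏ v, g v (b v) (z v) ∂Measure.pi μ ∂Measure.pi μ‖ ≤
      ∏ v, ∫⁻ b, ENNReal.ofReal ‖∫ z, g v b z ∂μ v‖ ∂μ v := by
  have h1 : ∀ b : ι → ℂ, ∫ z, ∏ v, g v (b v) (z v) ∂Measure.pi μ =
      ∏ v, ∫ z, g v (b v) z ∂μ v := fun b =>
    integral_fintype_prod_eq_prod (fun v z => g v (b v) z)
  simp only [h1]
  rw [integral_fintype_prod_eq_prod (fun v b => ∫ z, g v b z ∂μ v), norm_prod,
    ENNReal.ofReal_prod_of_nonneg fun v _ => norm_nonneg _]
  refine Finset.prod_le_prod' fun v _ => ?_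
  simp only [ofReal_norm_eq_enorm]
  exact enorm_integral_le_lintegral_enorm _

end PI

/-- (PI) -/
theorem pf_M_PI : M_PI := by
  intro K _ _ g B hm hB
  exact ⟨PI.int_prod (fun v : InfinitePlace K => mz (rv v)) (fun v R => PI.mz_ball (rv v) R) g B
    hm hB, PI.norm_le (fun v : InfinitePlace K => mz (rv v)) g⟩

end Pool.Agent.H69.BH
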