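import Mathlib

/-!
# The numbers of (WB) and auxiliary facts on integrals (MP_52e316_nt)
-/

set_option autoImplicit false

open MeasureTheory Set Filter
open scoped ENNReal

namespace Pool.Agent.H69.BH.WB

/-- the sum of the integrals is at most the integral of the sum -/
theorem sum_lintegral_le {α ι : Type*} [MeasurableSpace α] (μ : Measure α) (S : Finset ι)
    (f : ι → α → ℝ≥0∞) : ∑ i ∈ S, ∫⁻ x, f i x ∂μ ≤ ∫⁻ x, ∑ i ∈ S, f i x ∂μ := by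
  classical
  induction S using Finset.induction_on with
  | empty => simp
  | insert i S hi ih =>
    rw [Finset.sum_insert hi]
    refine (add_le_add le_rfl ih).trans ((le_lintegral_add _ _).trans (le_of_eq ?_))
    refine lintegral_congr fun x => ?_
    rw [Finset.sum_insert hi]

/-- translation of a window -/
theorem window (G : ℝ → ℝ≥0∞) {τ₁ s l : ℝ} (h1 : l ≤ s) (h2 : s ≤ l + 1) :
    ∫⁻ τ in Icc τ₁ (τ₁ + 1), G (τ + s) ≤ ∫⁻ τ in Icc (τ₁ + l) (τ₁ + l + 2), G τ := by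
  have h3 := (measurePreserving_add_right (volume : Measure ℝ) s).setLIntegral_comp_preimage_emb
    (MeasurableEquiv.addRight s).measurableEmbedding G (Icc (τ₁ + s) (τ₁ + 1 + s))
  have h4 : (fun τ => τ + s) ⁻¹' Icc (τ₁ + s) (τ₁ + 1 + s) = Icc τ₁ (τ₁ + 1) := by
    ext τ
    simp
  rw [h4] at h3
  rw [h3]
  refine lintegral_mono_set fun τ hτ => ?_
  exact ⟨by linarith [hτ.1], by linarith [hτ.2]⟩

/-- the numbers -/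
theorem numb {e c C₂ d N P X A₀ A s h Z : ℝ} (he : 0 < e) (he8 : e ≤ 1 / 8) (hc : 0 < c)
    (hC₂ : 0 ≤ C₂) (hd : 1 ≤ d) (hN : 1 ≤ N) (hNP : N ≤ P) (hdP : d ^ 4 ≤ P)
    (hX : d * P ^ (3 / 8 : ℝ) ≤ X) (hA₀ : A₀ = X / P ^ (1 / 4 : ℝ)) (hA1 : 1 ≤ A) (hA : A ≤ A₀)
    (hs : 0 < s) (hh : 0 < h) (hsc : c * (A₀ * N) ^ (-e) * (A₀ * h / Real.sqrt d) ≤ s)
    (hh2 : h ≤ C₂ * d ^ (1 / 2 + e))
    (hZ : Z = (s * A) ^ (3 / 4 : ℝ) * (1 + s * X / P) ^ (1 / 4 : ℝ) *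
      (P * (1 + X / A) + P ^ (1 / 2 : ℝ) * (X / A) ^ 3) ^ (1 / 4 : ℝ) / s) :
    h * Z ≤ max 1 (3 * (c⁻¹ * C₂ ^ 3 + C₂ ^ 4)) * (P * X) ^ e *
      (d ^ (1 / 2 : ℝ) * X ^ (1 / 2 : ℝ) * P ^ (3 / 16 : ℝ) *
        (1 + X ^ 2 / P ^ (5 / 4 : ℝ)) ^ (1 / 4 : ℝ)) := by
  have hd0 : 0 < d := by linarith
  have hd4 : 1 ≤ d ^ 4 := one_le_pow₀ hd
  have hP1 : 1 ≤ P := hd4.trans hdP
  have hP0 : 0 < P := by linarith
  have hX1 : 1 ≤ X := by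
    exact (one_le_mul_of_one_le_of_one_le hd (Real.one_le_rpow hP1 (by norm_num))).trans hX
  have hX0 : 0 < X := by linarith
  have hA00 : 0 < A₀ := by linarith
  have hA0 : 0 < A := by linarith
  have hN0 : 0 < N := by linarith
  have hPX1 : 1 ≤ P * X := one_le_mul_of_one_le_of_one_le hP1 hX1
  have hPX0 : 0 < P * X := by positivity
  -- powers of P
  obtain ⟨q, hq⟩ : ∃ q : ℝ, q = P ^ (1 / 16 : ℝ) := ⟨_, rfl⟩
  have hq0 : 0 < q := by rw [hq]; positivity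
  have hpow : ∀ k : ℕ, P ^ ((k : ℝ) / 16) = q ^ k := by
    intro k
    rw [hq, ← Real.rpow_natCast, ← Real.rpow_mul hP0.le]
    congr 1
    ring
  have hP16 : P = q ^ 16 := by
    rw [← hpow 16]
    norm_num
  have e14 : P ^ (1 / 4 : ℝ) = q ^ 4 := by
    rw [← hpow 4]
    norm_num
  have e12 : P ^ (1 / 2 : ℝ) = q ^ 8 := by
    rw [← hpow 8]
    norm_num
  have e54 : P ^ (5 / 4 : ℝ) = q ^ 20 := by
    rw [← hpow 20]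
    norm_num
  have e316 : P ^ (3 / 16 : ℝ) = q ^ 3 := by
    rw [← hpow 3]
    norm_num
  have hXA : X = A₀ * q ^ 4 := by
    rw [hA₀, e14]
    field_simp
  -- the ratio
  obtain ⟨ρ, hρ⟩ : ∃ ρ : ℝ, ρ = A₀ / A := ⟨_, rfl⟩
  have hρ1 : 1 ≤ ρ := by
    rw [hρ, le_div_iff₀ hA0]
    linarith
  have hA₀ρ : A₀ = ρ * A := by
    rw [hρ]
    field_simp
  have hβ : X / A = ρ * q ^ 4 := by
    rw [hXA, hA₀ρ]
    field_simp
  have hq1 : 1 ≤ q := by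
    rw [hq]
    exact Real.one_le_rpow hP1 (by norm_num)
  -- the third factor
  have h3 : P * (1 + X / A) + P ^ (1 / 2 : ℝ) * (X / A) ^ 3 ≤ 3 * (ρ ^ 3 * q ^ 20) := by
    rw [hβ, e12, hP16]
    have h4 : 1 ≤ ρ * q ^ 4 := one_le_mul_of_one_le_of_one_le hρ1 (one_le_pow₀ hq1)
    have h5 : ρ ≤ ρ ^ 3 := by
      calc ρ = ρ ^ 1 := (pow_one _).symm
        _ ≤ ρ ^ 3 := pow_le_pow_right₀ hρ1 (by norm_num)
    have hq16 : 0 < q ^ 16 := by positivity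
    have hq20 : 0 < q ^ 20 := by positivity
    calc q ^ 16 * (1 + ρ * q ^ 4) + q ^ 8 * (ρ * q ^ 4) ^ 3
        ≤ q ^ 16 * (ρ * q ^ 4 + ρ * q ^ 4) + q ^ 8 * (ρ * q ^ 4) ^ 3 := by gcongr
      _ = 2 * (ρ * q ^ 20) + ρ ^ 3 * q ^ 20 := by ring
      _ ≤ 2 * (ρ ^ 3 * q ^ 20) + ρ ^ 3 * q ^ 20 := by gcongr
      _ = _ := by ring
  have h30 : 0 ≤ P * (1 + X / A) + P ^ (1 / 2 : ℝ) * (X / A) ^ 3 := by positivity
  have hrt : ∀ x : ℝ, 0 ≤ x → (x ^ (1 / 4 : ℝ)) ^ 4 = x := by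
    intro x hx
    rw [← Real.rpow_natCast, ← Real.rpow_mul hx]
    norm_num
  have hrt3 : ∀ x : ℝ, 0 ≤ x → (x ^ (3 / 4 : ℝ)) ^ 4 = x ^ 3 := by
    intro x hx
    rw [← Real.rpow_natCast, ← Real.rpow_mul hx]
    norm_num
  have hrt2 : ∀ x : ℝ, 0 ≤ x → (x ^ (1 / 2 : ℝ)) ^ 4 = x ^ 2 := by
    intro x hx
    rw [← Real.rpow_natCast, ← Real.rpow_mul hx]
    norm_num
  -- the fourth power of Z
  have hZ0 : 0 ≤ Z := by
    rw [hZ]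
    positivity
  have hZ4 : Z ^ 4 ≤ 3 * (A₀ ^ 3 * q ^ 20 * (1 / s + X / P)) := by
    have h4 : Z ^ 4 = A ^ 3 * (1 / s + X / P) *
        (P * (1 + X / A) + P ^ (1 / 2 : ℝ) * (X / A) ^ 3) := by
      rw [hZ, div_pow, mul_pow, mul_pow, hrt3 _ (by positivity), hrt _ (by positivity), hrt _ h30]
      field_simp
    rw [h4]
    calc A ^ 3 * (1 / s + X / P) * (P * (1 + X / A) + P ^ (1 / 2 : ℝ) * (X / A) ^ 3)
        ≤ A ^ 3 * (1 / s + X / P) * (3 * (ρ ^ 3 * q ^ 20)) := by gcongr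
      _ = _ := by
        rw [hA₀ρ]
        ring
  -- the bound for 1 / s
  have hw0 : 0 < (A₀ * N) ^ e := by positivity
  have hs1 : 1 / s ≤ c⁻¹ * (A₀ * N) ^ e * (Real.sqrt d / (A₀ * h)) := by
    have hsd : 0 < Real.sqrt d := Real.sqrt_pos.2 hd0
    have h5 : 0 < c * (A₀ * N) ^ (-e) * (A₀ * h / Real.sqrt d) := by positivity
    calc 1 / s ≤ 1 / (c * (A₀ * N) ^ (-e) * (A₀ * h / Real.sqrt d)) :=
          one_div_le_one_div_of_le h5 hsc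
      _ = _ := by
        rw [Real.rpow_neg (by positivity)]
        field_simp
  -- bounds for the small powers
  have hA₀X : A₀ ≤ X := by
    rw [hXA]
    exact le_mul_of_one_le_right hA00.le (one_le_pow₀ hq1)
  have hw1 : (A₀ * N) ^ e ≤ (P * X) ^ e := by
    refine Real.rpow_le_rpow (by positivity) ?_ he.le
    rw [mul_comm P X]
    gcongr
  have hd4e : (d ^ e) ^ 4 ≤ (P * X) ^ e := by
    have h6 : (d ^ e) ^ 4 = (d ^ 4) ^ e := by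
      rw [← Real.rpow_natCast, ← Real.rpow_mul hd0.le, ← Real.rpow_natCast,
        ← Real.rpow_mul hd0.le, mul_comm]
    rw [h6]
    exact Real.rpow_le_rpow (by positivity) (hdP.trans (le_mul_of_one_le_right hP0.le hX1)) he.le
  have hde1 : 1 ≤ d ^ e := Real.one_le_rpow hd he.le
  have hd3e : (d ^ e) ^ 3 ≤ (P * X) ^ e :=
    (pow_le_pow_right₀ hde1 (by norm_num)).trans hd4e
  have hsq : Real.sqrt d ^ 2 = d := Real.sq_sqrt hd0.le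
  have hh3 : h ≤ C₂ * (Real.sqrt d * d ^ e) := by
    rw [Real.sqrt_eq_rpow, ← Real.rpow_add hd0]
    exact hh2
  have hsd0 : 0 < Real.sqrt d := Real.sqrt_pos.2 hd0
  have t1 : h ^ 3 ≤ C₂ ^ 3 * (Real.sqrt d ^ 3 * (d ^ e) ^ 3) := by
    calc h ^ 3 ≤ (C₂ * (Real.sqrt d * d ^ e)) ^ 3 := pow_le_pow_left₀ hh.le hh3 3
      _ = _ := by ring
  have t2 : h ^ 4 ≤ C₂ ^ 4 * (d ^ 2 * (d ^ e) ^ 4) := by
    calc h ^ 4 ≤ (C₂ * (Real.sqrt d * d ^ e)) ^ 4 := pow_le_pow_left₀ hh.le hh3 4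
      _ = C₂ ^ 4 * ((Real.sqrt d ^ 2) ^ 2 * (d ^ e) ^ 4) := by ring
      _ = _ := by rw [hsq]
  set w : ℝ := (P * X) ^ e with hw
  have hw1' : 1 ≤ w := Real.one_le_rpow hPX1 he.le
  have hw0' : 0 < w := by linarith
  -- first term
  have u1 : h ^ 4 * (A₀ ^ 3 * q ^ 20 * (1 / s)) ≤ c⁻¹ * C₂ ^ 3 * w ^ 2 * (d ^ 2 * X ^ 2 * q ^ 12) := by
    calc h ^ 4 * (A₀ ^ 3 * q ^ 20 * (1 / s))
        ≤ h ^ 4 * (A₀ ^ 3 * q ^ 20 * (c⁻¹ * (A₀ * N) ^ e * (Real.sqrt d / (A₀ * h)))) := by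
          gcongr
      _ = c⁻¹ * (A₀ * N) ^ e * (h ^ 3 * (Real.sqrt d * (A₀ ^ 2 * q ^ 20))) := by
          field_simp
      _ ≤ c⁻¹ * w * (C₂ ^ 3 * (Real.sqrt d ^ 3 * w) * (Real.sqrt d * (A₀ ^ 2 * q ^ 20))) := by
          gcongr
          exact t1.trans (by gcongr)
      _ = c⁻¹ * C₂ ^ 3 * w ^ 2 * ((Real.sqrt d ^ 2) ^ 2 * (A₀ * q ^ 4) ^ 2 * q ^ 12) := by ring
      _ = _ := by rw [hsq, ← hXA]
  have u2 : h ^ 4 * (A₀ ^ 3 * q ^ 20 * (X / P)) ≤ C₂ ^ 4 * w ^ 2 *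
      (d ^ 2 * X ^ 2 * q ^ 12 * (X ^ 2 / q ^ 20)) := by
    have h7 : A₀ ^ 3 * q ^ 20 * (X / P) = X ^ 2 * q ^ 12 * (X ^ 2 / q ^ 20) := by
      have h8 : A₀ = X / q ^ 4 := by rw [hA₀, e14]
      rw [h8, hP16]
      field_simp
    rw [h7]
    calc h ^ 4 * (X ^ 2 * q ^ 12 * (X ^ 2 / q ^ 20))
        ≤ (C₂ ^ 4 * (d ^ 2 * w ^ 2)) * (X ^ 2 * q ^ 12 * (X ^ 2 / q ^ 20)) := by
          gcongr
          refine t2.trans ?_
          gcongr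
          refine hd4e.trans ?_
          calc w = w ^ 1 := (pow_one _).symm
            _ ≤ w ^ 2 := pow_le_pow_right₀ hw1' (by norm_num)
      _ = _ := by ring
  -- the fourth power
  obtain ⟨Y, hY⟩ : ∃ Y : ℝ, Y = d ^ (1 / 2 : ℝ) * X ^ (1 / 2 : ℝ) * P ^ (3 / 16 : ℝ) *
        (1 + X ^ 2 / P ^ (5 / 4 : ℝ)) ^ (1 / 4 : ℝ) := ⟨_, rfl⟩
  have hY0 : 0 ≤ Y := by rw [hY]; positivity
  have hY4 : Y ^ 4 = d ^ 2 * X ^ 2 * q ^ 12 * (1 + X ^ 2 / q ^ 20) := by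
    rw [hY, mul_pow, mul_pow, mul_pow, hrt _ (by positivity), hrt2 _ hd0.le, hrt2 _ hX0.le,
      e316, e54]
    ring
  rw [← hY]
  obtain ⟨C₃, hC₃⟩ : ∃ C₃ : ℝ, C₃ = max 1 (3 * (c⁻¹ * C₂ ^ 3 + C₂ ^ 4)) := ⟨_, rfl⟩
  rw [← hC₃]
  have hC31 : 1 ≤ C₃ := by rw [hC₃]; exact le_max_left _ _
  have hC32 : 3 * (c⁻¹ * C₂ ^ 3 + C₂ ^ 4) ≤ C₃ := by rw [hC₃]; exact le_max_right _ _
  have hB0 : 0 ≤ d ^ 2 * X ^ 2 * q ^ 12 := by positivity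
  have hB1 : 0 ≤ X ^ 2 / q ^ 20 := by positivity
  have hc3 : 0 ≤ c⁻¹ * C₂ ^ 3 := by positivity
  have key : (h * Z) ^ 4 ≤ (C₃ * w * Y) ^ 4 := by
    calc (h * Z) ^ 4 = h ^ 4 * Z ^ 4 := by ring
      _ ≤ h ^ 4 * (3 * (A₀ ^ 3 * q ^ 20 * (1 / s + X / P))) := by gcongr
      _ = 3 * (h ^ 4 * (A₀ ^ 3 * q ^ 20 * (1 / s)) + h ^ 4 * (A₀ ^ 3 * q ^ 20 * (X / P))) := by
          ring
      _ ≤ 3 * (c⁻¹ * C₂ ^ 3 * w ^ 2 * (d ^ 2 * X ^ 2 * q ^ 12) + C₂ ^ 4 * w ^ 2 *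
          (d ^ 2 * X ^ 2 * q ^ 12 * (X ^ 2 / q ^ 20))) := by gcongr
      _ ≤ 3 * (c⁻¹ * C₂ ^ 3 + C₂ ^ 4) * w ^ 2 *
          (d ^ 2 * X ^ 2 * q ^ 12 * (1 + X ^ 2 / q ^ 20)) := by
          have h8 : 0 ≤ c⁻¹ * C₂ ^ 3 * w ^ 2 * (d ^ 2 * X ^ 2 * q ^ 12) * (X ^ 2 / q ^ 20) := by
            positivity
          have h9 : 0 ≤ C₂ ^ 4 * w ^ 2 * (d ^ 2 * X ^ 2 * q ^ 12) := by positivity
          have h10 : 3 * (c⁻¹ * C₂ ^ 3 + C₂ ^ 4) * w ^ 2 *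
              (d ^ 2 * X ^ 2 * q ^ 12 * (1 + X ^ 2 / q ^ 20)) =
              3 * (c⁻¹ * C₂ ^ 3 * w ^ 2 * (d ^ 2 * X ^ 2 * q ^ 12) + C₂ ^ 4 * w ^ 2 *
              (d ^ 2 * X ^ 2 * q ^ 12 * (X ^ 2 / q ^ 20))) +
              3 * (c⁻¹ * C₂ ^ 3 * w ^ 2 * (d ^ 2 * X ^ 2 * q ^ 12) * (X ^ 2 / q ^ 20) +
                C₂ ^ 4 * w ^ 2 * (d ^ 2 * X ^ 2 * q ^ 12)) := by ring
          rw [h10]
          linarith
      _ ≤ C₃ ^ 4 * w ^ 4 * Y ^ 4 := by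
          rw [hY4]
          have h10 : 3 * (c⁻¹ * C₂ ^ 3 + C₂ ^ 4) ≤ C₃ ^ 4 :=
            hC32.trans (by
              calc C₃ = C₃ ^ 1 := (pow_one _).symm
                _ ≤ C₃ ^ 4 := pow_le_pow_right₀ hC31 (by norm_num))
          have h11 : w ^ 2 ≤ w ^ 4 := pow_le_pow_right₀ hw1' (by norm_num)
          gcongr
      _ = _ := by ring
  exact le_of_pow_le_pow_left₀ (by norm_num) (by positivity) key

end Pool.Agent.H69.BH.WB
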