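import Pool.Agent.H29.BH.Targets2
import Pool.Agent.H69.BH.WBA

/-!
# (WB) the bound for one window (MP_52e316_nt)
-/

set_option autoImplicit false

open NumberField NumberField.InfinitePlace NumberField.Units
  NumberField.Units.dirichletUnitTheorem MeasureTheory Set Filter Complex
open scoped nonZeroDivisors ENNReal

namespace Pool.Agent.H69.BH

open Pool.Agent.H25.HK Pool.Agent.H23.LB Pool.Agent.H23.LC Pool.Agent.H29.DW
open Pool.Agent.H28.RC (Rep ft idl)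
open Pool.Agent.H29.BH

namespace WB

variable {K : Type} [Field K] [NumberField K]

theorem du_du {M : FI K} {a : Ideal (𝓞 K)} : du K ((a : FI K) * du K M) = (a : FI K)⁻¹ * M := by
  have hmul : ∀ M : FI K, du K M = du K 1 * M⁻¹ := fun M =>
    FractionalIdeal.dual_eq_mul_inv ℤ ℚ M
  have hd1 : du K (1 : FI K) ≠ 0 := FractionalIdeal.dual_ne_zero ℤ ℚ one_ne_zero
  rw [hmul ((a : FI K) * du K M), hmul M]
  rw [mul_inv, mul_inv, inv_inv]
  calc du K 1 * ((a : FI K)⁻¹ * ((du K 1)⁻¹ * M)) = (du K 1 * (du K 1)⁻¹) * ((a : FI K)⁻¹ * M) := by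
        ring
    _ = (a : FI K)⁻¹ * M := by rw [mul_inv_cancel₀ hd1, one_mul]

/-- the representatives `a⁻¹ M_c` -/
theorem reps_inv (hRR : T_RR) {ι : Type} {M : ι → FI K} (hM : Reps K M) {a : Ideal (𝓞 K)}
    (ha : a ≠ ⊥) : Reps K (fun c => (a : FI K)⁻¹ * M c) := by
  have h1 := (hRR K ι M hM).2.1
  have h2 := (hRR K ι _ h1).1 a ha
  have h3 := (hRR K ι _ h2).2.1
  have h4 : (fun c => du K ((a : FI K) * du K (M c))) = fun c => (a : FI K)⁻¹ * M c := by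
    funext c
    exact du_du
  rwa [h4] at h3

theorem absNorm_pos {M : FI K} (hM : M ≠ 0) : 0 < (FractionalIdeal.absNorm M : ℝ) := by
  have h0 := FractionalIdeal.absNorm_nonneg M
  have h1 : FractionalIdeal.absNorm M ≠ 0 := by
    rw [Ne, FractionalIdeal.absNorm_eq_zero_iff]
    exact hM
  have h2 : 0 < FractionalIdeal.absNorm M := lt_of_le_of_ne h0 (Ne.symm h1)
  exact_mod_cast h2

theorem yM_inv {M : FI K} (hM : M ≠ 0) {a : Ideal (𝓞 K)} (ha : a ≠ ⊥) (τ : ℝ)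
    (z : logSpace K) :
    yM K ((a : FI K)⁻¹ * M) τ z = yM K M (τ + Real.log (Nf K a)) z := by
  unfold yM
  congr 1
  have h1 : (FractionalIdeal.absNorm ((a : FI K)⁻¹ * M) : ℝ) =
      (Nf K a)⁻¹ * (FractionalIdeal.absNorm M : ℝ) := by
    rw [map_mul, map_inv₀, FractionalIdeal.coeIdeal_absNorm]
    push_cast
    rfl
  have h2 : Nf K a ≠ 0 := by
    unfold Nf
    rw [Nat.cast_ne_zero, Ne, Ideal.absNorm_eq_zero_iff]
    exact ha
  rw [h1, Real.log_mul (inv_ne_zero h2) (absNorm_pos hM).ne', Real.log_inv]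
  ring

theorem bt_yM (hYC : T_YC) {M : FI K} (hM : M ≠ 0) (τ : ℝ) (z : logSpace K) :
    bt M (yM K M τ z) = Real.exp (-τ) := by
  unfold bt yM
  rw [(hYC K).1]
  have h0 := absNorm_pos hM
  have h1 : 2 * (τ - Real.log (FractionalIdeal.absNorm M : ℝ)) / 2 =
      τ - Real.log (FractionalIdeal.absNorm M : ℝ) := by ring
  rw [h1, Real.exp_sub, Real.exp_log h0, mul_div_cancel₀ _ h0.ne', Real.exp_neg]

open scoped Classical in
theorem vol_Fd : volume.real (Fd K) = regulator K := by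
  unfold regulator Fd
  exact (ZLattice.covolume_eq_measure_fundamentalDomain (unitLattice K) volume
    (ZLattice.isAddFundamentalDomain (basisUnitLattice K) volume)).symm

open scoped Classical in
theorem vol_Fd' : volume (Fd K) = ENNReal.ofReal (regulator K) := by
  have h1 : volume (Fd K) ≠ ∞ := (ZSpan.fundamentalDomain_isBounded _).measure_lt_top.ne
  rw [← vol_Fd, ofReal_measureReal h1]

open scoped Classical in
/-- the average over the multipliers -/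
theorem avg (hIV : P_IV) (hRR : T_RR) {f : Ideal (𝓞 K)} (hf : f ≠ ⊥) (χ : HG K f) {ι : Type}
    [Fintype ι] {M : ι → FI K} (hM : Reps K M) (μ : InfinitePlace K → ℂ) (τ₁ : ℝ) {A' : ℝ}
    {S : Finset (Ideal (𝓞 K))} (hS : Mul f A' S) {H : ℝ}
    (hH : ∀ c τ z, τ ∈ Icc (τ₁ + Real.log A') (τ₁ + Real.log A' + 2) →
      ∑ a ∈ S, ‖SS χ ((a : FI K)⁻¹ * M c) (yM K (M c) τ z) μ‖ ≤ H) :
    (S.card : ℝ≥0∞) * ∑ c, ∫⁻ z in Fd K, ∫⁻ τ in Icc τ₁ (τ₁ + 1),
      ENNReal.ofReal ‖SS χ (M c) (yM K (M c) τ z) μ‖ ≤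
      ENNReal.ofReal (2 * (classNumber K * regulator K) * H) := by
  have h1 : ∀ a ∈ S, ∑ c, ∫⁻ z in Fd K, ∫⁻ τ in Icc τ₁ (τ₁ + 1),
      ENNReal.ofReal ‖SS χ (M c) (yM K (M c) τ z) μ‖ ≤
      ∑ c, ∫⁻ z in Fd K, ∫⁻ τ in Icc (τ₁ + Real.log A') (τ₁ + Real.log A' + 2),
        ENNReal.ofReal ‖SS χ ((a : FI K)⁻¹ * M c) (yM K (M c) τ z) μ‖ := by
    intro a ha
    have hne := hS.ne a ha
    obtain ⟨hs1, hs2⟩ := hS.size a ha
    rw [hIV K f hf χ ι ι M (fun c => (a : FI K)⁻¹ * M c) hM (reps_inv hRR hM hne) μ _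
      measurableSet_Icc]
    refine Finset.sum_le_sum fun c _ => lintegral_mono fun z => ?_
    simp only [yM_inv (hM.1 c) hne]
    have hA0 : 0 < A' := lt_of_lt_of_le one_pos hS.one
    refine window (fun τ => ENNReal.ofReal ‖SS χ ((a : FI K)⁻¹ * M c) (yM K (M c) τ z) μ‖)
      (Real.log_le_log hA0 hs1) ?_
    have h2 : Real.log (Nf K a) ≤ Real.log (2 * A') :=
      Real.log_le_log (lt_of_lt_of_le hA0 hs1) hs2.le
    rw [Real.log_mul two_ne_zero hA0.ne'] at h2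
    have h3 := Real.log_two_lt_d9
    linarith
  calc (S.card : ℝ≥0∞) * ∑ c, ∫⁻ z in Fd K, ∫⁻ τ in Icc τ₁ (τ₁ + 1),
        ENNReal.ofReal ‖SS χ (M c) (yM K (M c) τ z) μ‖
      = ∑ _a ∈ S, ∑ c, ∫⁻ z in Fd K, ∫⁻ τ in Icc τ₁ (τ₁ + 1),
        ENNReal.ofReal ‖SS χ (M c) (yM K (M c) τ z) μ‖ := by
        rw [Finset.sum_const, nsmul_eq_mul]
    _ ≤ ∑ a ∈ S, ∑ c, ∫⁻ z in Fd K, ∫⁻ τ in Icc (τ₁ + Real.log A') (τ₁ + Real.log A' + 2),
        ENNReal.ofReal ‖SS χ ((a : FI K)⁻¹ * M c) (yM K (M c) τ z) μ‖ := Finset.sum_le_sum h1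
    _ = ∑ c, ∑ a ∈ S, ∫⁻ z in Fd K, ∫⁻ τ in Icc (τ₁ + Real.log A') (τ₁ + Real.log A' + 2),
        ENNReal.ofReal ‖SS χ ((a : FI K)⁻¹ * M c) (yM K (M c) τ z) μ‖ := Finset.sum_comm
    _ ≤ ∑ _c : ι, ∫⁻ z in Fd K, ∫⁻ τ in Icc (τ₁ + Real.log A') (τ₁ + Real.log A' + 2),
        ENNReal.ofReal H := by
        refine Finset.sum_le_sum fun c _ => (sum_lintegral_le _ S _).trans ?_
        refine lintegral_mono fun z => (sum_lintegral_le _ S _).trans ?_
        refine setLIntegral_mono measurable_const fun τ hτ => ?_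
        rw [← ENNReal.ofReal_sum_of_nonneg fun a _ => norm_nonneg _]
        exact ENNReal.ofReal_le_ofReal (hH c τ z hτ)
    _ = (Fintype.card ι : ℝ≥0∞) * (ENNReal.ofReal H * ENNReal.ofReal 2 *
        ENNReal.ofReal (regulator K)) := by
        rw [Finset.sum_const, Finset.card_univ, nsmul_eq_mul]
        congr 1
        rw [setLIntegral_const, setLIntegral_const, Real.volume_Icc, vol_Fd']
        congr 3
        ring
    _ = ENNReal.ofReal (2 * (classNumber K * regulator K) * H) := by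
        rcases le_or_gt 0 H with hH0 | hH0
        · have hc : (Fintype.card ι : ℝ≥0∞) = ENNReal.ofReal (classNumber K) := by
            rw [(hRR K ι M hM).2.2, ENNReal.ofReal_natCast]
          have hreg : 0 ≤ regulator K := (regulator_pos K).le
          rw [hc, ← ENNReal.ofReal_mul hH0, ← ENNReal.ofReal_mul (by positivity),
            ← ENNReal.ofReal_mul (by positivity)]
          congr 1
          ring
        · rw [ENNReal.ofReal_of_nonpos hH0.le, zero_mul, zero_mul, mul_zero,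
            ENNReal.ofReal_of_nonpos]
          have hreg : 0 ≤ regulator K := (regulator_pos K).le
          exact mul_nonpos_of_nonneg_of_nonpos (by positivity) hH0.le

end WB

open WB in
open scoped Classical in
/-- (WB) -/
theorem pf_P_WB (hHB : N_HB) (hIE : P_IE) (hIV : P_IV) (hHR : Pool.Agent.H29.TC.T_HR)
    (hRR : T_RR) (hYC : T_YC) : P_WB := by
  intro n hn ε hε hε1
  obtain ⟨e, he⟩ : ∃ e : ℝ, e = ε / 8 := ⟨_, rfl⟩
  have he0 : 0 < e := by rw [he]; positivity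
  have he8 : e ≤ 1 / 8 := by rw [he]; linarith
  obtain ⟨C₁, hC₁, h1⟩ := hHB n hn e he0 he8
  obtain ⟨c, hc, h2⟩ := hIE n hn e he0 (by linarith)
  obtain ⟨C₂, h3⟩ := hHR n e he0
  obtain ⟨C₃, hC₃⟩ : ∃ C₃ : ℝ, C₃ = max 1 (3 * (c⁻¹ * (max 0 C₂) ^ 3 + (max 0 C₂) ^ 4)) :=
    ⟨_, rfl⟩
  have hC31 : 1 ≤ C₃ := by rw [hC₃]; exact le_max_left _ _
  have hC13 := one_le_mul_of_one_le_of_one_le hC₁ hC31
  refine ⟨2 * C₁ * C₃, by linarith, ?_⟩
  intro K _ _ hK f hf χ hχ ι _ M hM μ τ₁ P X hQ hP hX hdP hdX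
  have hd1 : 1 ≤ |(discr K : ℝ)| := by
    have h1 : (1 : ℤ) ≤ |discr K| := Int.one_le_abs (discr_ne_zero K)
    have h2 : ((1 : ℤ) : ℝ) ≤ ((|discr K| : ℤ) : ℝ) := by exact_mod_cast h1
    rw [Int.cast_abs] at h2
    simpa using h2
  have hd0 : 0 < |(discr K : ℝ)| := by linarith
  have hP1 : 1 ≤ P := (one_le_pow₀ hd1).trans hdP
  have hP0 : 0 < P := by linarith
  have hX0 : 0 < X := by rw [hX]; exact Real.exp_pos _
  have hN1 : 1 ≤ Nf K f := by
    unfold Nf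
    have : 0 < Ideal.absNorm f := Nat.pos_of_ne_zero (by rwa [Ne, Ideal.absNorm_eq_zero_iff])
    exact_mod_cast this
  have hcK1 : 1 ≤ cK χ.k μ := by
    unfold cK
    calc (1 : ℝ) = ∏ _v : InfinitePlace K, (1 : ℝ) := by rw [Finset.prod_const_one]
      _ ≤ _ := Finset.prod_le_prod (fun v _ => zero_le_one) fun v _ => one_le_pow₀ (by
        unfold cc
        have h1 := abs_nonneg (μ v).im
        have h2 := abs_nonneg ((χ.k v : ℤ) : ℝ)
        linarith)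
  have hNP : Nf K f ≤ P := by
    rw [hP]
    exact le_mul_of_one_le_right (by linarith) hcK1
  obtain ⟨A₀, hA₀⟩ : ∃ A₀ : ℝ, A₀ = X / P ^ (1 / 4 : ℝ) := ⟨_, rfl⟩
  have hA₀d : |(discr K : ℝ)| ^ (1 / 2 + e) ≤ A₀ := by
    have h4 : |(discr K : ℝ)| ^ (1 / 2 + e) ≤ |(discr K : ℝ)| := by
      calc |(discr K : ℝ)| ^ (1 / 2 + e) ≤ |(discr K : ℝ)| ^ (1 : ℝ) :=
            Real.rpow_le_rpow_of_exponent_le hd1 (by linarith)
        _ = _ := Real.rpow_one _
    have h5 : |(discr K : ℝ)| ≤ A₀ := by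
      rw [hA₀, le_div_iff₀ (by positivity)]
      exact (mul_le_mul_of_nonneg_left (Real.rpow_le_rpow_of_exponent_le hP1 (by norm_num))
        hd0.le).trans hdX
    exact h4.trans h5
  obtain ⟨A', S, hA'A, hS, hSc⟩ := h2 K hK f hf A₀ hA₀d
  have hA'1 := hS.one
  have hA'0 : 0 < A' := by linarith
  have hA₀0 : 0 < A₀ := by linarith
  have hreg : 0 < regulator K := regulator_pos K
  have hcl : 0 < (classNumber K : ℝ) := by
    exact_mod_cast Nat.pos_of_ne_zero (classNumber_ne_zero K)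
  have hh : 0 < (classNumber K : ℝ) * regulator K := by positivity
  have hs : 0 < (S.card : ℝ) := by
    refine lt_of_lt_of_le ?_ hSc
    have : 0 < Real.sqrt |(discr K : ℝ)| := Real.sqrt_pos.2 hd0
    have : 0 < Nf K f := by linarith
    positivity
  -- the bound in the window
  obtain ⟨Z, hZ⟩ : ∃ Z : ℝ, Z = (S.card * A') ^ (3 / 4 : ℝ) *
      (1 + S.card * X / P) ^ (1 / 4 : ℝ) *
      (P * (1 + X / A') + P ^ (1 / 2 : ℝ) * (X / A') ^ 3) ^ (1 / 4 : ℝ) / S.card := ⟨_, rfl⟩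
  have hH : ∀ c τ z, τ ∈ Icc (τ₁ + Real.log A') (τ₁ + Real.log A' + 2) →
      ∑ a ∈ S, ‖SS χ ((a : FI K)⁻¹ * M c) (yM K (M c) τ z) μ‖ ≤
      C₁ * (A' * P) ^ e * (Z * S.card) := by
    intro c τ z hτ
    refine (h1 K hK f hf χ hχ (M c) (yM K (M c) τ z) μ A' P S (hM.1 c) hQ hS hP).trans ?_
    rw [bt_yM hYC (hM.1 c)]
    have h5 : Real.exp (-τ) ≤ X / A' := by
      rw [hX]
      nth_rewrite 1 [← Real.exp_log hA'0]
      rw [← Real.exp_sub]
      exact Real.exp_le_exp.2 (by linarith [hτ.1])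
    have h6 := Real.exp_pos (-τ)
    have h7 : Z * S.card = (S.card * A') ^ (3 / 4 : ℝ) *
      (1 + S.card * X / P) ^ (1 / 4 : ℝ) *
      (P * (1 + X / A') + P ^ (1 / 2 : ℝ) * (X / A') ^ 3) ^ (1 / 4 : ℝ) := by
      rw [hZ]
      field_simp
    have h8 : S.card * A' * Real.exp (-τ) / P ≤ S.card * X / P := by
      have h9 : S.card * A' * (X / A') = S.card * X := by field_simp
      rw [← h9]
      gcongr
    rw [h7]
    calc C₁ * (A' * P) ^ e * (S.card * A') ^ (3 / 4 : ℝ) *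
          (1 + S.card * A' * Real.exp (-τ) / P) ^ (1 / 4 : ℝ) *
          (P * (1 + Real.exp (-τ)) + P ^ (1 / 2 : ℝ) * Real.exp (-τ) ^ 3) ^ (1 / 4 : ℝ)
        ≤ C₁ * (A' * P) ^ e * (S.card * A') ^ (3 / 4 : ℝ) *
          (1 + S.card * X / P) ^ (1 / 4 : ℝ) *
          (P * (1 + X / A') + P ^ (1 / 2 : ℝ) * (X / A') ^ 3) ^ (1 / 4 : ℝ) := by
          gcongr
      _ = _ := by ring
  have h5 := avg hIV hRR hf χ hM μ τ₁ hS hH
  have h6 := numb (Z := Z) he0 he8 hc (le_max_left 0 C₂) hd1 hN1 hNP hdP hdX hA₀ hA'1 hA'A hs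
    hh hSc ((h3 K hK).trans (mul_le_mul_of_nonneg_right (le_max_right 0 C₂) (by positivity))) hZ
  rw [← hC₃] at h6
  obtain ⟨W, hW⟩ : ∃ W : ℝ≥0∞, W = ∑ c, ∫⁻ z in Fd K, ∫⁻ τ in Icc τ₁ (τ₁ + 1),
      ENNReal.ofReal ‖SS χ (M c) (yM K (M c) τ z) μ‖ := ⟨_, rfl⟩
  rw [← hW] at h5 ⊢
  have hPX1 : 1 ≤ P * X := by
    have h7 : A₀ ≤ X := by
      rw [hA₀]
      exact div_le_self hX0.le (Real.one_le_rpow hP1 (by norm_num))
    have h8 : 1 ≤ X := by linarith
    exact one_le_mul_of_one_le_of_one_le hP1 h8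
  have hw : (A' * P) ^ e ≤ (P * X) ^ e := by
    refine Real.rpow_le_rpow (by positivity) ?_ he0.le
    have h7 : A₀ ≤ X := by
      rw [hA₀]
      exact div_le_self hX0.le (Real.one_le_rpow hP1 (by norm_num))
    rw [mul_comm P X]
    exact mul_le_mul_of_nonneg_right (hA'A.trans h7) hP0.le
  obtain ⟨Y, hY⟩ : ∃ Y : ℝ, Y = |(discr K : ℝ)| ^ (1 / 2 : ℝ) * X ^ (1 / 2 : ℝ) *
      P ^ (3 / 16 : ℝ) * (1 + X ^ 2 / P ^ (5 / 4 : ℝ)) ^ (1 / 4 : ℝ) := ⟨_, rfl⟩
  have hY0 : 0 ≤ Y := by rw [hY]; positivity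
  rw [← hY] at h6 ⊢
  have hs' : (S.card : ℝ≥0∞) = ENNReal.ofReal (S.card : ℝ) := (ENNReal.ofReal_natCast _).symm
  have h7 : W ≤ ENNReal.ofReal (2 * C₁ * (A' * P) ^ e * (classNumber K * regulator K * Z)) := by
    rw [hs'] at h5
    have h8 : 2 * (classNumber K * regulator K) * (C₁ * (A' * P) ^ e * (Z * S.card)) =
        S.card * (2 * C₁ * (A' * P) ^ e * (classNumber K * regulator K * Z)) := by ring
    rw [h8, ENNReal.ofReal_mul hs.le] at h5
    exact (ENNReal.mul_le_mul_iff_right (ENNReal.ofReal_pos.2 hs).ne' ENNReal.ofReal_ne_top).1 h5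
  refine h7.trans (ENNReal.ofReal_le_ofReal ?_)
  calc 2 * C₁ * (A' * P) ^ e * (classNumber K * regulator K * Z)
      ≤ 2 * C₁ * (P * X) ^ e * (C₃ * (P * X) ^ e * Y) := by
        have h9 : 0 ≤ classNumber K * regulator K * Z := by
          rw [hZ]
          positivity
        gcongr
    _ = 2 * C₁ * C₃ * (P * X) ^ (e + e) * Y := by
        rw [Real.rpow_add (by linarith)]
        ring
    _ ≤ 2 * C₁ * C₃ * (P * X) ^ ε * Y := by
        have h9 : (P * X) ^ (e + e) ≤ (P * X) ^ ε :=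
          Real.rpow_le_rpow_of_exponent_le hPX1 (by rw [he]; linarith)
        have h10 : 0 ≤ 2 * C₁ * C₃ := by linarith
        exact mul_le_mul_of_nonneg_right (mul_le_mul_of_nonneg_left h9 h10) hY0

end Pool.Agent.H69.BH
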