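import Pool.Agent.H29.BH.Targets2
import Pool.Agent.H26.BG.WB

/-!
# (WF) the hybrid bound of Burgess for the `L`-function (MP_52e316_nt)
-/

set_option autoImplicit false

open NumberField NumberField.InfinitePlace NumberField.Units
  NumberField.Units.dirichletUnitTheorem MeasureTheory Set Filter Complex
open scoped nonZeroDivisors ENNReal

namespace Pool.Agent.H69.BH

open Pool.Agent.H25.HK Pool.Agent.H23.LB Pool.Agent.H23.LC Pool.Agent.H29.DW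
open Pool.Agent.H28.RC (Rep ft idl)
open Pool.Agent.H23.BG Pool.Agent.H29.BH
open Pool.Agent.H26.BG (afp one_le_cond)

/-- (WF) -/
theorem pf_P_WF (hBP : P_BP) (hDU : Pool.Agent.H23.BG.F_DU) (hAE : V_AE) (hGH : V_GH)
    (hDS : T_DS) (hDC : U_DC) (hGE : U_GE) : P_WF := by
  intro n hn0 ε hε
  set e : ℝ := min ε 1 with he
  have he0 : 0 < e := lt_min hε one_pos
  have he1 : e ≤ 1 := min_le_right _ _
  have heε : e ≤ ε := min_le_left _ _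
  set κ : ℝ := e / 32 with hκ
  have hκ0 : 0 < κ := by positivity
  have hκ1 : κ ≤ 1 := by rw [hκ]; linarith
  obtain ⟨C₁, hC₁, hP⟩ := hBP n hn0 e κ he0 he1 hκ0 le_rfl
  obtain ⟨C₀, hC₀, hA⟩ := afp hAE hGH hDS hDC hGE hDU n
  refine ⟨2 * (C₁ * (C₀ * κ⁻¹)), ?_⟩
  intro K _ _ hn f hf χ hχ D L hL t
  obtain ⟨v, v', hv, hv', h1⟩ := hA κ hκ0 hκ1 K hn f hf χ hχ D L hL t
  have hB0 : 0 ≤ C₀ * κ⁻¹ := by positivity
  have h2 := hP K hn f hf χ hχ t (C₀ * κ⁻¹) v hB0 hv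
  have h3 := hP K hn f hf χ hχ t (C₀ * κ⁻¹) v' hB0 hv'
  have hQ1 := one_le_cond hf χ.k χ.ν t
  have h4 : (|(discr K : ℝ)| * Nf K f * Ci χ.k χ.ν t) ^ e ≤
      (|(discr K : ℝ)| * Nf K f * Ci χ.k χ.ν t) ^ ε :=
    Real.rpow_le_rpow_of_exponent_le hQ1 heε
  have hN0 : 0 ≤ Nf K f := by have := one_le_Nf hf; linarith
  have hCi0 : 0 ≤ Ci χ.k χ.ν t := by have := one_le_Ci χ.k χ.ν t; linarith
  calc ‖L (1 / 2 + t * I)‖ ≤ _ := h1
    _ ≤ _ := add_le_add h2 h3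
    _ = 2 * (C₁ * (C₀ * κ⁻¹)) * (|(discr K : ℝ)| * Nf K f * Ci χ.k χ.ν t) ^ e *
        (|(discr K : ℝ)| ^ (1 / 2 : ℝ) * (Nf K f * Ci χ.k χ.ν t) ^ (3 / 16 : ℝ)) := by ring
    _ ≤ _ := by gcongr

end Pool.Agent.H69.BH
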